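import Mathlib

/-!
# Galois-fixed elements of geometric fundamental groups of affine curves in characteristic `p`

Let `K` be a field of characteristic `p`, `Ω` a Galois extension of `K` and `R` a `K`-algebra (the
coordinate ring of an affine curve `X`).  Let `F` be a field over `R` (the function field of `X`) and
`M` a Galois extension of `F` which contains `Ω` (the maximal extension of `FΩ` which is unramified
over `X_Ω`); then `Gal(M/F)` is the fundamental group of `X` and `D = Gal(M/FΩ)` is the geometric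
one.  We assume that every finite extension `L` of `K` in `Ω` has a finite Galois extension in `Ω`
whose degree is divisible by `p`; this is shown for finite fields and for global function fields `K`.

The main result says that an element `γ` of `D` which is fixed by a section `s` of
`Gal(M/F) → Gal(Ω/K)` has an order prime to `p` in all finite quotients of `Gal(M/F)`.

Proof.  If the order `n` of `γ` modulo `N` is divisible by `p`, then, as the cover with the group
`N ∩ D` is unramified, there is an element `c` of the ring of this cover with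
`∑ i < n, γ^i c = 1` (linear independence of characters), so that `y = - ∑ i < n, i γ^i c` satisfies
`γ y = y + 1`.  The element `f = y^p - y` is integral over `R` and fixed by `γ`.  Its stabiliser in
`Gal(Ω/K)` is open, so it contains `Gal(Ω/L)` with `L` finite over `K`.  Let `T/L` be finite and
Galois of degree divisible by `p` and `a ∈ T` with trace `1`.  Then `f` is the sum of the conjugates
`s τ (a f)`, `τ` in lifts of `Gal(T/L)`.  Let `z^p - z = a f` with `z` in `M`; then `γ z - z = d` lies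
in the prime field, `w = ∑ s τ z` is a solution of `w^p - w = f` and
`γ w - w = [T : L] d = 0`.  So `γ` fixes all the solutions of this equation, a contradiction.

The other results reduce the question for the other primes `l` to the first homology groups with
coefficients in `ℤ_l` of the covers of `X` over `K` with a rational point.
-/

set_option autoImplicit false

namespace Pool.Agent.Results.MP_a94a03_ag.OrderPrimeToP

open Topology



/-- Chase, Harrison and Rosenberg: if the cyclic group generated by `γ` acts on `C` with trivial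
inertia groups, then there is an element of trace one. -/
theorem exists_trace_one {C : Type} [CommRing C] (γ : C ≃+* C) (n : ℕ) (hn : 0 < n)
    (hγ : ∀ c, (γ ^ n) c = c)
    (hI : ∀ Q : Ideal C, Q.IsMaximal → ∀ i, 0 < i → i < n → ∃ b : C, (γ ^ i) b - b ∉ Q) :
    ∃ c : C, ∑ i ∈ Finset.range n, (γ ^ i) c = 1 := by
  have hγn : γ ^ n = 1 := by
    ext c
    exact hγ c
  -- the subring of invariants
  let A : Subring C :=
    { carrier := {c | γ c = c}
      mul_mem' := fun {a b} ha hb => by
        simp only [Set.mem_ofPred_eq] at *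
        rw [map_mul, ha, hb]
      one_mem' := by simp
      add_mem' := fun {a b} ha hb => by
        simp only [Set.mem_ofPred_eq] at *
        rw [map_add, ha, hb]
      zero_mem' := by simp
      neg_mem' := fun {a} ha => by
        simp only [Set.mem_ofPred_eq] at *
        rw [map_neg, ha] }
  have hA : ∀ c, c ∈ A ↔ γ c = c := fun c => Iff.rfl
  have hAi : ∀ (i : ℕ) (c : C), c ∈ A → (γ ^ i) c = c := by
    intro i c hc
    induction i with
    | zero => simp
    | succ i ih => rw [pow_succ, RingAut.mul_apply, (hA c).mp hc, ih]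
  have htr : ∀ c, ∑ i ∈ Finset.range n, (γ ^ i) c ∈ A := by
    intro c
    rw [hA, map_sum]
    have h1 : ∀ i ∈ Finset.range n, γ ((γ ^ i) c) = (γ ^ (i + 1)) c := by
      intro i _
      rw [pow_succ', RingAut.mul_apply]
    rw [Finset.sum_congr rfl h1]
    have h2 := Finset.sum_range_succ' (fun i => (γ ^ i) c) n
    have h3 := Finset.sum_range_succ (fun i => (γ ^ i) c) n
    simp only [hγ, pow_zero, RingAut.one_apply] at h2 h3
    have h4 := h2.symm.trans h3
    exact add_right_cancel h4
  -- the extension is integral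
  let G : Subgroup (C ≃+* C) := Subgroup.zpowers γ
  have hfin : Finite G := by
    have : IsOfFinOrder γ := isOfFinOrder_iff_pow_eq_one.mpr ⟨n, hn, hγn⟩
    exact this.finite_zpowers
  have : Algebra.IsInvariant A C G := ⟨fun b hb => by
    refine ⟨⟨b, ?_⟩, rfl⟩
    rw [hA]
    exact hb ⟨γ, Subgroup.mem_zpowers γ⟩⟩
  have : Algebra.IsIntegral A C := Algebra.IsInvariant.isIntegral A C G
  -- the ideal of the traces
  let T : Ideal A :=
    { carrier := {t | ∃ c : C, ∑ i ∈ Finset.range n, (γ ^ i) c = t}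
      add_mem' := by
        rintro a b ⟨c, hc⟩ ⟨d, hd⟩
        refine ⟨c + d, ?_⟩
        simp only [map_add, Finset.sum_add_distrib, hc, hd]
        rfl
      zero_mem' := ⟨0, by simp⟩
      smul_mem' := by
        rintro a b ⟨c, hc⟩
        refine ⟨a * c, ?_⟩
        simp only [map_mul]
        have : ∀ i ∈ Finset.range n, (γ ^ i) (a : C) * (γ ^ i) c = a * (γ ^ i) c := by
          intro i _
          rw [hAi i a a.2]
        rw [Finset.sum_congr rfl this, ← Finset.mul_sum, hc]
        rfl }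
  by_contra hno
  have hT : T ≠ ⊤ := by
    intro h
    have h1 : (1 : A) ∈ T := by rw [h]; trivial
    obtain ⟨c, hc⟩ := h1
    exact hno ⟨c, by simpa using hc⟩
  obtain ⟨m, hm, hTm⟩ := Ideal.exists_le_maximal T hT
  obtain ⟨Q, hQ, hQm⟩ := Ideal.exists_ideal_over_maximal_of_isIntegral (S := C) m (by
    intro x hx
    rw [RingHom.mem_ker] at hx
    have : x = 0 := Subtype.ext (by simpa using hx)
    rw [this]
    exact m.zero_mem)
  have := hQ.isPrime
  -- characters modulo Q
  have hinj : ∀ i j : ℕ, i < j → j < n → ∃ b : C, (γ ^ j) b - (γ ^ i) b ∉ Q := by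
    intro i j hij hj
    obtain ⟨b, hb⟩ := hI Q hQ (j - i) (by omega) (by omega)
    refine ⟨(γ ^ i).symm b, ?_⟩
    have h1 : (γ ^ j) ((γ ^ i).symm b) = (γ ^ (j - i)) b := by
      have : j = (j - i) + i := by omega
      conv_lhs => rw [this, pow_add, RingAut.mul_apply]
      rw [RingEquiv.apply_symm_apply]
    rw [h1, RingEquiv.apply_symm_apply]
    exact hb
  let χ : Fin n → (C →* C ⧸ Q) := fun i => ((Ideal.Quotient.mk Q).comp (γ ^ (i : ℕ)).toRingHom : C →+* C ⧸ Q)
  have hχ : ∀ i c, χ i c = Ideal.Quotient.mk Q ((γ ^ (i : ℕ)) c) := fun i c => rfl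
  have hχi : Function.Injective χ := by
    intro i j hij
    by_contra hne
    rcases lt_or_gt_of_ne hne with h | h
    · obtain ⟨b, hb⟩ := hinj i j h j.2
      apply hb
      rw [← Ideal.Quotient.eq, ← hχ, ← hχ, hij]
    · obtain ⟨b, hb⟩ := hinj j i h i.2
      apply hb
      rw [← Ideal.Quotient.eq, ← hχ, ← hχ, hij]
  have hli := (linearIndependent_monoidHom C (C ⧸ Q)).comp χ hχi
  rw [Fintype.linearIndependent_iff] at hli
  have h0 := hli (fun _ => 1) (by
    funext c
    simp only [Function.comp_apply, one_smul, Finset.sum_apply, Pi.zero_apply]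
    have h1 : (⟨∑ i ∈ Finset.range n, (γ ^ i) c, htr c⟩ : A) ∈ m := hTm ⟨c, rfl⟩
    rw [← hQm, Ideal.mem_comap] at h1
    have h2 : Ideal.Quotient.mk Q (∑ i ∈ Finset.range n, (γ ^ i) c) = 0 :=
      Ideal.Quotient.eq_zero_iff_mem.mpr h1
    rw [map_sum, Finset.sum_range] at h2
    exact h2)
  exact one_ne_zero (h0 ⟨0, hn⟩)

/-- Additive Hilbert 90. -/
theorem exists_add_one {C : Type} [CommRing C] (γ : C ≃+* C) (n : ℕ)
    (hn0 : (n : C) = 0) (hγ : ∀ c, (γ ^ n) c = c) (c : C) (hc : ∑ i ∈ Finset.range n, (γ ^ i) c = 1) :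
    ∃ y : C, γ y = y + 1 := by
  refine ⟨-∑ i ∈ Finset.range n, (i : C) * (γ ^ i) c, ?_⟩
  rw [map_neg, map_sum]
  have h1 : ∀ i ∈ Finset.range n, γ ((i : C) * (γ ^ i) c) =
      ((i + 1 : ℕ) : C) * (γ ^ (i + 1)) c - (γ ^ (i + 1)) c := by
    intro i _
    rw [map_mul, map_natCast, pow_succ', RingAut.mul_apply]
    push_cast
    ring
  rw [Finset.sum_congr rfl h1, Finset.sum_sub_distrib]
  have h2 := Finset.sum_range_succ' (fun i => (i : C) * (γ ^ i) c) n
  have h3 := Finset.sum_range_succ (fun i => (i : C) * (γ ^ i) c) n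
  have h4 := Finset.sum_range_succ' (fun i => (γ ^ i) c) n
  have h5 := Finset.sum_range_succ (fun i => (γ ^ i) c) n
  simp only [hγ, pow_zero, RingAut.one_apply, Nat.cast_zero, zero_mul, add_zero, hn0] at h2 h3 h4 h5
  rw [← h2, h3]
  have h6 : ∑ k ∈ Finset.range n, (γ ^ (k + 1)) c = 1 := by
    have := h4.symm.trans h5
    rw [hc] at this
    exact add_right_cancel this
  rw [h6]
  ring


/-- Every finite extension `L` of `K` in `Ω` has a finite Galois extension in `Ω` whose degree is
divisible by `p`. -/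
def DegreesDivisible (K Ω : Type) [Field K] [Field Ω] [Algebra K Ω] (p : ℕ) : Prop :=
  ∀ L : IntermediateField K Ω, FiniteDimensional K L →
    ∃ F : IntermediateField L Ω, FiniteDimensional L F ∧ IsGalois L F ∧ p ∣ Module.finrank L F

/-- The group of the automorphisms of `M` over `F` which fix the elements of `Ω`. -/
def geom (Ω F M : Type) [Field Ω] [Field F] [Field M] [Algebra Ω M] [Algebra F M] :
    Subgroup (M ≃ₐ[F] M) where
  carrier := {g | ∀ a : Ω, g (algebraMap Ω M a) = algebraMap Ω M a}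
  mul_mem' := fun {g h} hg hh a => by
    rw [AlgEquiv.mul_apply, hh a, hg a]
  one_mem' := fun a => rfl
  inv_mem' := fun {g} hg a => by
    have h1 : g⁻¹ (g (algebraMap Ω M a)) = algebraMap Ω M a := by
      rw [← AlgEquiv.mul_apply, inv_mul_cancel, AlgEquiv.one_apply]
    rw [hg a] at h1
    exact h1

variable {K Ω F M R : Type} [Field K] [Field Ω] [Field F] [Field M] [CommRing R]
  [Algebra K Ω] [Algebra Ω M] [Algebra K M] [IsScalarTower K Ω M]
  [Algebra F M] [Algebra R F] [Algebra R M] [IsScalarTower R F M]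
  [Algebra K R] [IsScalarTower K R M]

theorem mem_geom {g : M ≃ₐ[F] M} :
    g ∈ geom Ω F M ↔ ∀ a : Ω, g (algebraMap Ω M a) = algebraMap Ω M a := Iff.rfl

theorem isIntegral_apply {b : M} (hb : IsIntegral R b) (g : M ≃ₐ[F] M) : IsIntegral R (g b) :=
  hb.map (g.restrictScalars R)

theorem isIntegral_const [IsGalois K Ω] (a : Ω) : IsIntegral R (algebraMap Ω M a) := by
  have h1 : IsIntegral K a := Algebra.IsIntegral.isIntegral a
  have h2 : IsIntegral K (algebraMap Ω M a) := h1.map (IsScalarTower.toAlgHom K Ω M)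
  exact h2.tower_top

/-- An element of trace one decomposes every element with an open stabiliser. -/
theorem decompose [IsGalois K Ω] [IsGalois F M] (p : ℕ) (hp : DegreesDivisible K Ω p)
    (s : (Ω ≃ₐ[K] Ω) →* (M ≃ₐ[F] M)) (hs : Continuous s)
    (hsr : ∀ (σ : Ω ≃ₐ[K] Ω) (a : Ω), s σ (algebraMap Ω M a) = algebraMap Ω M (σ a)) (b : M) :
    ∃ (c : Ω) (S : Finset (Ω ≃ₐ[K] Ω)), p ∣ S.card ∧
      ∑ σ ∈ S, s σ (algebraMap Ω M c * b) = b := by
  classical
  -- the stabiliser of b is open
  have hfin : FiniteDimensional F (IntermediateField.adjoin F {b}) :=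
    IntermediateField.adjoin.finiteDimensional (Algebra.IsIntegral.isIntegral (R := F) b)
  have hV : (s ⁻¹' ((IntermediateField.adjoin F {b}).fixingSubgroup : Set (M ≃ₐ[F] M))) ∈
      𝓝 (1 : Ω ≃ₐ[K] Ω) := by
    apply hs.continuousAt
    rw [map_one]
    exact (IntermediateField.fixingSubgroup_isOpen (IntermediateField.adjoin F {b})).mem_nhds
      (one_mem _)
  rw [krullTopology_mem_nhds_one_iff] at hV
  obtain ⟨L, hL, hLV⟩ := hV
  obtain ⟨T, hT, hG, hd⟩ := hp L hL
  obtain ⟨c, hc⟩ := Algebra.trace_surjective L T 1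
  have h1 : (1 : Ω) = ∑ τ : T ≃ₐ[L] T, ((τ c : T) : Ω) := by
    have h2 := trace_eq_sum_automorphisms (K := L) (L := T) c
    rw [hc] at h2
    have h3 := congrArg (fun x : T => (x : Ω)) h2
    simpa using h3
  let e : (T ≃ₐ[L] T) → (Ω ≃ₐ[K] Ω) := fun τ => (τ.liftNormal Ω).restrictScalars K
  have he : ∀ (τ : T ≃ₐ[L] T) (x : T), e τ (x : Ω) = (τ x : T) := by
    intro τ x
    exact τ.liftNormal_commutes Ω x
  have hinj : Function.Injective e := by
    intro τ τ' h
    ext x
    rw [← he, ← he, h]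
  have hfix : ∀ τ, s (e τ) b = b := by
    intro τ
    have h2 : e τ ∈ (L.fixingSubgroup : Set (Ω ≃ₐ[K] Ω)) := by
      rw [SetLike.mem_coe, IntermediateField.mem_fixingSubgroup_iff]
      intro x hx
      exact (τ.liftNormal Ω).commutes ⟨x, hx⟩
    have h3 := hLV h2
    rw [Set.mem_preimage, SetLike.mem_coe, IntermediateField.mem_fixingSubgroup_iff] at h3
    exact h3 b (IntermediateField.mem_adjoin_simple_self F b)
  refine ⟨(c : Ω), Finset.univ.image e, ?_, ?_⟩
  · rw [Finset.card_image_of_injective _ hinj, Finset.card_univ, ← Nat.card_eq_fintype_card,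
      IsGalois.card_aut_eq_finrank]
    exact hd
  · rw [Finset.sum_image (fun _ _ _ _ h => hinj h)]
    have h4 : ∀ τ ∈ (Finset.univ : Finset (T ≃ₐ[L] T)), s (e τ) (algebraMap Ω M c * b) =
        algebraMap Ω M ((τ c : T) : Ω) * b := by
      intro τ _
      rw [map_mul, hsr, hfix, he]
    rw [Finset.sum_congr rfl h4, ← Finset.sum_mul, ← map_sum, ← h1, map_one, one_mul]

/-- The elements `y` with `y ^ p = y` are fixed. -/
theorem fixed_of_pow_eq (p : ℕ) [Fact p.Prime] [CharP M p] (g : M ≃ₐ[F] M) {e : M}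
    (he : e ^ p = e) : g e = e := by
  have h1 : e ∈ (⊥ : Subfield M) := (Subfield.mem_bot_iff_pow_eq_self M p).mpr he
  have h2 : (⊥ : Subfield M) ≤ (RingHom.eqLocusField (g : M →+* M) (RingHom.id M)) := bot_le
  exact h2 h1

/-- No fixed Artin and Schreier class: if `γ` is fixed and `f` is an integral element fixed by `γ`,
then `γ` fixes the solutions of `z ^ p - z = f`. -/
theorem fixed_solution [IsGalois K Ω] [IsGalois F M] (p : ℕ) [Fact p.Prime] [CharP M p]
    (hp : DegreesDivisible K Ω p)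
    (hAS : ∀ b : M, IsIntegral R b → ∃ z : M, z ^ p - z = b)
    (s : (Ω ≃ₐ[K] Ω) →* (M ≃ₐ[F] M)) (hs : Continuous s)
    (hsr : ∀ (σ : Ω ≃ₐ[K] Ω) (a : Ω), s σ (algebraMap Ω M a) = algebraMap Ω M (σ a))
    (γ : M ≃ₐ[F] M) (hγ : γ ∈ geom Ω F M) (hfix : ∀ σ, s σ * γ * (s σ)⁻¹ = γ)
    (f : M) (hf : IsIntegral R f) (hγf : γ f = f) (y : M) (hy : y ^ p - y = f) : γ y = y := by
  classical
  have hcomm : ∀ σ (x : M), γ (s σ x) = s σ (γ x) := by
    intro σ x
    have h1 : s σ * γ = γ * s σ := by
      have := hfix σ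
      rw [mul_inv_eq_iff_eq_mul] at this
      exact this
    rw [← AlgEquiv.mul_apply, ← h1, AlgEquiv.mul_apply]
  obtain ⟨c, S, hS, hsum⟩ := decompose p hp s hs hsr f
  have hcf : IsIntegral R (algebraMap Ω M c * f) := (isIntegral_const (K := K) (R := R) c).mul hf
  obtain ⟨z, hz⟩ := hAS _ hcf
  -- d = γ z - z is in the prime field
  have hd : (γ z - z) ^ p = γ z - z := by
    have h1 : (γ z) ^ p - γ z = z ^ p - z := by
      rw [← map_pow, ← map_sub, hz, map_mul, (mem_geom.mp hγ) c, hγf]
    rw [sub_pow_char]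
    linear_combination h1
  -- w = ∑ s σ z solves w ^ p - w = f
  have hw : (∑ σ ∈ S, s σ z) ^ p - ∑ σ ∈ S, s σ z = f := by
    rw [sum_pow_char, ← Finset.sum_sub_distrib, ← hsum]
    refine Finset.sum_congr rfl fun σ _ => ?_
    rw [← map_pow, ← map_sub, hz]
  have hγw : γ (∑ σ ∈ S, s σ z) = ∑ σ ∈ S, s σ z := by
    have h1 : ∀ σ ∈ S, γ (s σ z) = s σ z + (γ z - z) := by
      intro σ _
      rw [hcomm]
      have h2 : γ z = z + (γ z - z) := by ring
      conv_lhs => rw [h2]
      rw [map_add, fixed_of_pow_eq p (s σ) hd]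
    rw [map_sum, Finset.sum_congr rfl h1, Finset.sum_add_distrib, Finset.sum_const]
    obtain ⟨k, hk⟩ := hS
    rw [hk, nsmul_eq_mul]
    push_cast
    rw [CharP.cast_eq_zero, zero_mul, zero_mul, add_zero]
  have he : (y - ∑ σ ∈ S, s σ z) ^ p = y - ∑ σ ∈ S, s σ z := by
    rw [sub_pow_char]
    linear_combination hy - hw
  have h3 := fixed_of_pow_eq p γ he
  rw [map_sub, hγw] at h3
  exact sub_left_inj.mp h3


/-- The elements of `M` which are integral over `R` and fixed by the elements of `N ∩ D`. -/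
def layer (R : Type) {F M : Type} [Field F] [Field M] [CommRing R] [Algebra F M] [Algebra R M]
    (D N : Subgroup (M ≃ₐ[F] M)) : Subring M where
  carrier := {b | IsIntegral R b ∧ ∀ g ∈ N, g ∈ D → g b = b}
  mul_mem' := fun {a b} ha hb =>
    ⟨ha.1.mul hb.1, fun g hg hD => by rw [map_mul, ha.2 g hg hD, hb.2 g hg hD]⟩
  one_mem' := ⟨isIntegral_one, fun g _ _ => map_one g⟩
  add_mem' := fun {a b} ha hb =>
    ⟨ha.1.add hb.1, fun g hg hD => by rw [map_add, ha.2 g hg hD, hb.2 g hg hD]⟩
  zero_mem' := ⟨isIntegral_zero, fun g _ _ => map_zero g⟩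
  neg_mem' := fun {a} ha => ⟨ha.1.neg, fun g hg hD => by rw [map_neg, ha.2 g hg hD]⟩

theorem mem_layer {D N : Subgroup (M ≃ₐ[F] M)} {b : M} :
    b ∈ layer R D N ↔ IsIntegral R b ∧ ∀ g ∈ N, g ∈ D → g b = b := Iff.rfl

/-- The covers with the groups `N ∩ D`, `N` open and normal, have trivial inertia groups: for every
maximal ideal `Q` of the ring of the cover and every `g ∈ D` which is not in `N` there is an
element `b` of the ring with `g b - b ∉ Q`. -/
def IsUnramified (R : Type) {F M : Type} [Field F] [Field M] [CommRing R] [Algebra F M]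
    [Algebra R M] (D : Subgroup (M ≃ₐ[F] M)) : Prop :=
  ∀ N : Subgroup (M ≃ₐ[F] M), N.Normal → IsOpen (N : Set (M ≃ₐ[F] M)) →
    ∀ Q : Ideal (layer R D N), Q.IsMaximal → ∀ g ∈ D, g ∉ N →
      ∃ b c : layer R D N, (c : M) = g b - b ∧ c ∉ Q

/-- Every equation `z ^ p - z = b` with `b` integral over `R` has a solution in `M`. -/
def IsASClosed (R M : Type) [Field M] [CommRing R] [Algebra R M] (p : ℕ) : Prop :=
  ∀ b : M, IsIntegral R b → ∃ z : M, z ^ p - z = b

theorem not_dvd_order [IsGalois K Ω] [IsGalois F M] (p : ℕ) [Fact p.Prime] [CharP M p]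
    (hp : DegreesDivisible K Ω p) (hunr : IsUnramified R (geom Ω F M)) (hAS : IsASClosed R M p)
    (s : (Ω ≃ₐ[K] Ω) →* (M ≃ₐ[F] M)) (hs : Continuous s)
    (hsr : ∀ (σ : Ω ≃ₐ[K] Ω) (a : Ω), s σ (algebraMap Ω M a) = algebraMap Ω M (σ a))
    (γ : M ≃ₐ[F] M) (hγ : γ ∈ geom Ω F M) (hfix : ∀ σ, s σ * γ * (s σ)⁻¹ = γ)
    (N : Subgroup (M ≃ₐ[F] M)) [N.Normal] (hN : IsOpen (N : Set (M ≃ₐ[F] M))) :
    ¬ p ∣ orderOf (γ : (M ≃ₐ[F] M) ⧸ N) := by
  intro hdvd
  obtain ⟨n, hn⟩ : ∃ n, n = orderOf (γ : (M ≃ₐ[F] M) ⧸ N) := ⟨_, rfl⟩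
  have hQfin : Finite ((M ≃ₐ[F] M) ⧸ N) := Subgroup.quotient_finite_of_isOpen N hN
  have hn0 : 0 < n := hn ▸ orderOf_pos _
  have hγn : γ ^ n ∈ N := by
    rw [← QuotientGroup.eq_one_iff, QuotientGroup.mk_pow, hn, pow_orderOf_eq_one]
  have hconj : ∀ g ∈ N, g ∈ geom Ω F M → ∀ δ ∈ geom Ω F M, ∀ b ∈ layer R (geom Ω F M) N,
      g (δ b) = δ b := by
    intro g hg hgD δ hδ b hb
    have h1 : δ⁻¹ * g * δ ∈ N := by
      have := (inferInstance : N.Normal).conj_mem g hg δ⁻¹
      rwa [inv_inv] at this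
    have h2 : δ⁻¹ * g * δ ∈ geom Ω F M :=
      Subgroup.mul_mem _ (Subgroup.mul_mem _ (Subgroup.inv_mem _ hδ) hgD) hδ
    have h3 := (mem_layer.mp hb).2 _ h1 h2
    have h4 : g * δ = δ * (δ⁻¹ * g * δ) := by group
    rw [← AlgEquiv.mul_apply, h4, AlgEquiv.mul_apply, h3]
  have hmem : ∀ δ ∈ geom Ω F M, ∀ b ∈ layer R (geom Ω F M) N, δ b ∈ layer R (geom Ω F M) N :=
    fun δ hδ b hb => mem_layer.mpr ⟨isIntegral_apply (mem_layer.mp hb).1 δ,
      fun g hg hgD => hconj g hg hgD δ hδ b hb⟩
  -- the automorphism of the layer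
  let γC : layer R (geom Ω F M) N ≃+* layer R (geom Ω F M) N :=
    { toFun := fun b => ⟨γ b, hmem γ hγ b b.2⟩
      invFun := fun b => ⟨γ⁻¹ b, hmem γ⁻¹ (Subgroup.inv_mem _ hγ) b b.2⟩
      left_inv := fun b => Subtype.ext (by
        change γ⁻¹ (γ (b : M)) = b
        rw [← AlgEquiv.mul_apply, inv_mul_cancel, AlgEquiv.one_apply])
      right_inv := fun b => Subtype.ext (by
        change γ (γ⁻¹ (b : M)) = b
        rw [← AlgEquiv.mul_apply, mul_inv_cancel, AlgEquiv.one_apply])
      map_mul' := fun a b => Subtype.ext (map_mul γ (a : M) b)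
      map_add' := fun a b => Subtype.ext (map_add γ (a : M) b) }
  have hγC : ∀ (i : ℕ) (b : layer R (geom Ω F M) N), (((γC ^ i) b : layer R (geom Ω F M) N) : M) =
      (γ ^ i) (b : M) := by
    intro i
    induction i with
    | zero => intro b; rfl
    | succ i ih =>
      intro b
      rw [pow_succ, RingAut.mul_apply, ih, pow_succ, AlgEquiv.mul_apply]
      rfl
  have hγCn : ∀ b, (γC ^ n) b = b := by
    intro b
    apply Subtype.ext
    rw [hγC]
    exact (mem_layer.mp b.2).2 _ hγn (Subgroup.pow_mem _ hγ n)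
  obtain ⟨c, hc⟩ := exists_trace_one γC n hn0 hγCn (by
    intro Q hQ i hi hin
    have hiN : γ ^ i ∉ N := by
      intro h
      rw [← QuotientGroup.eq_one_iff, QuotientGroup.mk_pow] at h
      exact pow_ne_one_of_lt_orderOf hi.ne' (hn ▸ hin) h
    obtain ⟨b, c, hbc, hcQ⟩ := hunr N inferInstance hN Q hQ (γ ^ i) (Subgroup.pow_mem _ hγ i) hiN
    refine ⟨b, ?_⟩
    have : (γC ^ i) b - b = c := by
      apply Subtype.ext
      rw [hbc]
      change (((γC ^ i) b : layer R (geom Ω F M) N) : M) - b = _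
      rw [hγC]
    rw [this]
    exact hcQ)
  obtain ⟨y, hy⟩ := exists_add_one γC n (by
    apply Subtype.ext
    change ((n : layer R (geom Ω F M) N) : M) = 0
    push_cast
    rw [CharP.cast_eq_zero_iff M p, hn]
    exact hdvd) hγCn c hc
  have hy' : γ (y : M) = y + 1 := congrArg (fun x : layer R (geom Ω F M) N => (x : M)) hy
  have hyi : IsIntegral R (y : M) := (mem_layer.mp y.2).1
  have hf : γ ((y : M) ^ p - y) = (y : M) ^ p - y := by
    rw [map_sub, map_pow, hy', add_pow_char, one_pow]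
    ring
  have := fixed_solution p hp hAS s hs hsr γ hγ hfix ((y : M) ^ p - y) ((hyi.pow p).sub hyi) hf y
    rfl
  rw [this] at hy'
  exact one_ne_zero (left_eq_add.mp hy')


section Constants
open Polynomial

theorem as_natDegree {A : Type} [CommRing A] [Nontrivial A] (p : ℕ) (hp : 1 < p) :
    (X ^ p - X : A[X]).natDegree = p := by
  rw [natDegree_sub_eq_left_of_natDegree_lt, natDegree_X_pow]
  rw [natDegree_X_pow, natDegree_X]
  exact hp

theorem as_monic {A : Type} [CommRing A] [Nontrivial A] (p : ℕ) (hp : 1 < p) :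
    (X ^ p - X : A[X]).Monic := by
  apply monic_X_pow_sub
  rw [degree_X]
  exact_mod_cast hp

/-- A finite field is not closed under Artin and Schreier equations. -/
theorem not_surjective_of_finite (L : Type) [Field L] [Finite L] (p : ℕ) (hp : 1 < p) :
    ∃ a : L, ∀ x : L, x ^ p - x ≠ a := by
  by_contra h
  push Not at h
  have hsurj : Function.Surjective (fun x : L => x ^ p - x) := h
  have hinj := Finite.injective_iff_surjective.mpr hsurj
  have h01 : (0 : L) = 1 := hinj (by
    simp only [one_pow, sub_self]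
    rw [zero_pow (by omega), sub_zero])
  exact zero_ne_one h01

/-- A global function field is not closed under Artin and Schreier equations. -/
theorem not_surjective_of_functionField (k L : Type) [Field k] [Finite k] [Field L]
    [Algebra (RatFunc k) L] [FiniteDimensional (RatFunc k) L] (p : ℕ) (hp : 1 < p) :
    ∃ a : L, ∀ x : L, x ^ p - x ≠ a := by
  by_contra hno
  push Not at hno
  letI : Algebra k[X] L := ((algebraMap (RatFunc k) L).comp (algebraMap k[X] (RatFunc k))).toAlgebra
  haveI : IsScalarTower k[X] (RatFunc k) L := IsScalarTower.of_algebraMap_eq' rfl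
  have hinjL : Function.Injective (algebraMap k[X] L) := by
    rw [IsScalarTower.algebraMap_eq k[X] (RatFunc k) L]
    exact (algebraMap (RatFunc k) L).injective.comp (IsFractionRing.injective k[X] (RatFunc k))
  obtain ⟨O, hO⟩ : ∃ O : Subalgebra k[X] L, O = integralClosure k[X] L := ⟨_, rfl⟩
  have hmem : ∀ x : L, x ∈ O ↔ IsIntegral k[X] x := by
    intro x
    rw [hO]
    exact mem_integralClosure_iff k[X] L
  haveI : Algebra.IsIntegral k[X] O := by
    rw [hO]
    infer_instance
  obtain ⟨P, hP⟩ : ∃ P : Ideal k[X], P = Ideal.span {X - C 0} := ⟨_, rfl⟩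
  let e : (k[X] ⧸ P) ≃+* k := (Ideal.quotEquivOfEq hP).trans
    (Polynomial.quotientSpanXSubCAlgEquiv (0 : k)).toRingEquiv
  haveI hfinP : Finite (k[X] ⧸ P) := Finite.of_equiv k e.symm.toEquiv
  haveI hPmax : P.IsMaximal := by
    apply Ideal.Quotient.maximal_of_isField
    exact e.toMulEquiv.isField (Field.toIsField k)
  obtain ⟨Q, hQ, hQP⟩ := Ideal.exists_ideal_over_maximal_of_isIntegral (S := O) P (by
    intro x hx
    rw [RingHom.mem_ker] at hx
    have h1 : algebraMap k[X] L x = 0 := congrArg (fun y : O => (y : L)) hx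
    have h2 : x = 0 := hinjL (by rw [h1, map_zero])
    rw [h2]
    exact P.zero_mem)
  haveI : Q.LiesOver P := ⟨hQP.symm⟩
  -- surjectivity on O
  have hOs : ∀ a : O, ∃ x : O, x ^ p - x = a := by
    intro a
    obtain ⟨x, hx⟩ := hno a
    have hxi : IsIntegral k[X] x := by
      refine IsIntegral.of_aeval_monic (as_monic p hp) ?_ ?_
      · rw [as_natDegree p hp]
        omega
      · simp only [map_sub, map_pow, aeval_X]
        rw [hx]
        exact (hmem _).mp a.2
    exact ⟨⟨x, (hmem x).mpr hxi⟩, Subtype.ext hx⟩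
  have hκs : ∀ a : O ⧸ Q, ∃ x : O ⧸ Q, x ^ p - x = a := by
    intro a
    obtain ⟨b, rfl⟩ := Ideal.Quotient.mk_surjective a
    obtain ⟨x, rfl⟩ := hOs b
    exact ⟨Ideal.Quotient.mk Q x, by simp⟩
  -- the residue field is finite
  letI : Field (k[X] ⧸ P) := Ideal.Quotient.field P
  letI : Field (O ⧸ Q) := Ideal.Quotient.field Q
  let b := Module.Free.chooseBasis (k[X] ⧸ P) (O ⧸ Q)
  choose b' hb' using fun i => Ideal.Quotient.mk_surjective (I := Q) (b i)
  have hli : LinearIndependent (k[X] ⧸ P)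
      ((IsScalarTower.toAlgHom k[X] O (O ⧸ Q)).toLinearMap ∘ b') := by
    have : ((IsScalarTower.toAlgHom k[X] O (O ⧸ Q)).toLinearMap ∘ b') = b := by
      funext i
      exact hb' i
    rw [this]
    exact b.linearIndependent
  have hli2 : LinearIndependent (RatFunc k) ((O.val.toLinearMap) ∘ b') := by
    refine Ideal.FinrankQuotientMap.linearIndependent_of_nontrivial (RatFunc k) ?_
      O.val.toLinearMap Subtype.val_injective _ hli
    rw [Ideal.Quotient.algebraMap_eq, Ideal.mk_ker]
    exact hPmax.ne_top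
  haveI hι : Finite (Module.Free.ChooseBasisIndex (k[X] ⧸ P) (O ⧸ Q)) := hli2.finite
  haveI : Module.Finite (k[X] ⧸ P) (O ⧸ Q) := Module.Finite.of_basis b
  haveI : Finite (O ⧸ Q) := Module.finite_of_finite (k[X] ⧸ P)
  obtain ⟨a, ha⟩ := not_surjective_of_finite (O ⧸ Q) p hp
  obtain ⟨x, hx⟩ := hκs a
  exact ha x hx

theorem degreesDivisible {K Ω : Type} [Field K] [Field Ω] [Algebra K Ω] (p : ℕ) [Fact p.Prime]
    [CharP Ω p] [IsSepClosed Ω] [IsGalois K Ω]
    (h : ∀ L : IntermediateField K Ω, FiniteDimensional K L → ∃ a : L, ∀ x : L, x ^ p - x ≠ a) :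
    DegreesDivisible K Ω p := by
  intro L hL
  obtain ⟨a, ha⟩ := h L hL
  have hp : 1 < p := (Fact.out : p.Prime).one_lt
  obtain ⟨z, hz⟩ : ∃ z : Ω, z ^ p - z = a := by
    have hdeg : (X ^ p - X - C (a : Ω)).degree = (p : WithBot ℕ) := by
      rw [degree_sub_eq_left_of_degree_lt, degree_sub_eq_left_of_degree_lt, degree_X_pow]
      · rw [degree_X_pow, degree_X]
        exact_mod_cast hp
      · rw [degree_sub_eq_left_of_degree_lt]
        · rw [degree_X_pow]
          refine lt_of_le_of_lt degree_C_le ?_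
          exact_mod_cast (by omega : 0 < p)
        · rw [degree_X_pow, degree_X]
          exact_mod_cast hp
    have hsep : (X ^ p - X - C (a : Ω)).Separable := by
      rw [Polynomial.separable_def]
      have h0 : derivative (X ^ p : Polynomial Ω) = 0 := by
        rw [derivative_X_pow, CharP.cast_eq_zero, C_0, zero_mul]
      have : derivative (X ^ p - X - C (a : Ω)) = -1 := by
        rw [derivative_sub, derivative_sub, h0, derivative_X, derivative_C]
        ring
      rw [this]
      exact (isCoprime_one_right).neg_right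
    obtain ⟨z, hz⟩ := IsSepClosed.exists_root _ (by
      rw [hdeg]
      exact_mod_cast (by omega : p ≠ 0)) hsep
    refine ⟨z, ?_⟩
    simp only [IsRoot.def, eval_sub, eval_pow, eval_X, eval_C] at hz
    exact sub_eq_zero.mp hz
  have hfin : FiniteDimensional L (IntermediateField.adjoin L {z}) :=
    IntermediateField.adjoin.finiteDimensional (Algebra.IsIntegral.isIntegral (R := L) z)
  have hnorm : Normal L (IntermediateField.adjoin L {z}) := by
    rw [IntermediateField.normal_iff_forall_map_le']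
    intro σ
    rw [IntermediateField.adjoin_map, IntermediateField.adjoin_le_iff]
    rintro _ ⟨w, hw, rfl⟩
    rw [Set.mem_singleton_iff] at hw
    rw [hw]
    have he : (σ z - z) ^ p = σ z - z := by
      have h1 : (σ z) ^ p - σ z = z ^ p - z := by
        rw [← map_pow, ← map_sub, hz]
        exact σ.commutes a
      rw [sub_pow_char]
      linear_combination h1
    have h1 : σ z - z ∈ (⊥ : Subfield Ω) := (Subfield.mem_bot_iff_pow_eq_self Ω p).mpr he
    have h2 : (⊥ : Subfield Ω) ≤ (IntermediateField.adjoin L {z}).toSubfield := bot_le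
    have h3 : σ z = (σ z - z) + z := by ring
    have h4 : σ z ∈ IntermediateField.adjoin L {z} := by
      rw [h3]
      exact add_mem (h2 h1) (IntermediateField.mem_adjoin_simple_self L z)
    exact h4
  have hsepT : Algebra.IsSeparable L (IntermediateField.adjoin L {z}) :=
    Algebra.isSeparable_tower_bot_of_isSeparable L (IntermediateField.adjoin L {z}) Ω
  have hGal : IsGalois L (IntermediateField.adjoin L {z}) := ⟨⟩
  refine ⟨IntermediateField.adjoin L {z}, hfin, hGal, ?_⟩
  obtain ⟨T, hT⟩ : ∃ T, T = IntermediateField.adjoin L {z} := ⟨_, rfl⟩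
  rw [← hT] at hfin hnorm hsepT hGal ⊢
  obtain ⟨ζ, hζ⟩ : ∃ ζ : T, (ζ : Ω) = z := ⟨⟨z, hT ▸ IntermediateField.mem_adjoin_simple_self L z⟩, rfl⟩
  have hζa : ζ ^ p - ζ = algebraMap L T a := by
    apply Subtype.ext
    push_cast
    rw [hζ, hz]
    rfl
  obtain ⟨σ, hσ⟩ : ∃ σ : T ≃ₐ[L] T, σ ζ ≠ ζ := by
    by_contra hno
    push Not at hno
    obtain ⟨x, hx⟩ := (IsGalois.mem_range_algebraMap_iff_fixed (F := L) ζ).mpr hno
    apply ha x
    apply (algebraMap L T).injective
    rw [map_sub, map_pow, hx, hζa]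
  haveI : CharP T p := (algebraMap T Ω).charP (algebraMap T Ω).injective p
  have he : (σ ζ - ζ) ^ p = σ ζ - ζ := by
    have h1 : (σ ζ) ^ p - σ ζ = ζ ^ p - ζ := by
      rw [← map_pow, ← map_sub, hζa]
      exact σ.commutes a
    rw [sub_pow_char]
    linear_combination h1
  have hpow : ∀ i : ℕ, (σ ^ i) ζ = ζ + i * (σ ζ - ζ) := by
    intro i
    induction i with
    | zero => simp
    | succ i ih =>
      have h1 : σ ζ = ζ + (σ ζ - ζ) := by ring
      rw [pow_succ', AlgEquiv.mul_apply, ih, map_add, map_mul, map_natCast,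
        fixed_of_pow_eq p σ he]
      push_cast
      conv_lhs => rw [h1]
      ring
  have h1 := hpow (orderOf σ)
  rw [pow_orderOf_eq_one, AlgEquiv.one_apply, left_eq_add, mul_eq_zero,
    or_iff_left (sub_ne_zero.mpr hσ), CharP.cast_eq_zero_iff T p] at h1
  rw [← IsGalois.card_aut_eq_finrank]
  exact h1.trans (orderOf_dvd_natCard σ)


end Constants

section GroupTheory

variable {E : Type} [Group E] [TopologicalSpace E] [IsTopologicalGroup E]

/-- `U` is a subgroup of `D`, open in `D` and normalised by the image of `s`. -/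
structure IsStableOpen {G : Type} [Group G] (D : Subgroup E) (s : G →* E) (U : Subgroup E) :
    Prop where
  le : U ≤ D
  isOpen : ∃ V : Set E, IsOpen V ∧ (U : Set E) = V ∩ D
  stable : ∀ σ : G, ∀ u ∈ U, s σ * u * (s σ)⁻¹ ∈ U

/-- The class of `u` in the pro-`l` completion of the abelianisation of `U` is trivial: for all `k`,
`u` lies in the closure of the subgroup generated by the commutators and the `l ^ k`-th powers. -/
def TrivialAt (l : ℕ) (U : Subgroup E) (u : E) : Prop :=
  ∀ k : ℕ, u ∈ closure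
    ((⁅U, U⁆ ⊔ Subgroup.closure {x : E | ∃ v ∈ U, v ^ l ^ k = x} : Subgroup E) : Set E)

/-- The elements of the pro-`l` completion of the abelianisation of `U` which come from `U` and are
fixed by the conjugations with the elements `s σ` are trivial. -/
def NoFixedAt {G : Type} [Group G] (l : ℕ) (s : G →* E) (U : Subgroup E) : Prop :=
  ∀ u ∈ U, (∀ σ : G, TrivialAt l U (s σ * u * (s σ)⁻¹ * u⁻¹)) → TrivialAt l U u

/-- The element `γ` is fixed: it commutes with all `s σ`. -/
def IsFixed {G E : Type} [Group G] [Group E] (s : G →* E) (γ : E) : Prop :=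
  ∀ σ : G, s σ * γ * (s σ)⁻¹ = γ

/-- The order of `γ` modulo every open normal subgroup is not divisible by `p`. -/
def OrdersPrimeTo {E : Type} [Group E] [TopologicalSpace E] (p : ℕ) (γ : E) : Prop :=
  ∀ (N : Subgroup E) [N.Normal], IsOpen (N : Set E) → ¬ p ∣ orderOf (γ : E ⧸ N)

/-- For every subgroup `U` of `D` which is open in `D`, normalised by the image of `s` and generated
by one fixed element `γ` of `D` and the intersection with `D` of an open normal subgroup `N`,
`NoFixedAt l s U` holds. -/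
def NoFixedInHomology {G : Type} [Group G] (l : ℕ) (D : Subgroup E) (s : G →* E) : Prop :=
  ∀ (U N : Subgroup E) (γ : E), N.Normal → IsOpen (N : Set E) → γ ∈ D → IsFixed s γ →
    U = Subgroup.zpowers γ ⊔ (N ⊓ D) → IsStableOpen D s U → NoFixedAt l s U

theorem exists_openNormal [CompactSpace E] [TotallyDisconnectedSpace E] {x : E} (hx : x ≠ 1) :
    ∃ N : Subgroup E, N.Normal ∧ IsOpen (N : Set E) ∧ x ∉ N := by
  have hT : T2Space E := inferInstance
  obtain ⟨W, hW, hxW⟩ : ∃ W : Set E, W ∈ 𝓝 (1 : E) ∧ x ∉ W :=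
    ⟨{x}ᶜ, isOpen_compl_singleton.mem_nhds (by simpa using hx.symm), by simp⟩
  obtain ⟨N, hN⟩ := ProfiniteGrp.exist_openNormalSubgroup_sub_open_nhds_of_one (G := E)
    (isOpen_interior (s := W)) (mem_interior_iff_mem_nhds.mpr hW)
  exact ⟨N.toSubgroup, inferInstance, N.isOpen', fun h => hxW (interior_subset (hN h))⟩

theorem eq_one_of_orders [CompactSpace E] [TotallyDisconnectedSpace E] (γ : E)
    (h : ∀ N : Subgroup E, ∀ [N.Normal], IsOpen (N : Set E) → ∀ l : ℕ, l.Prime →
      ¬ l ∣ orderOf (γ : E ⧸ N)) : γ = 1 := by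
  by_contra hne
  obtain ⟨N, hN, hNo, hγN⟩ := exists_openNormal hne
  have h1 : orderOf (γ : E ⧸ N) ≠ 1 := by
    intro h1
    rw [orderOf_eq_one_iff, QuotientGroup.eq_one_iff] at h1
    exact hγN h1
  obtain ⟨l, hl, hd⟩ := Nat.exists_prime_and_dvd h1
  exact h N hNo l hl hd

theorem not_dvd_of_noFixed {G : Type} [Group G] (D : Subgroup E) [D.Normal] (s : G →* E) (l : ℕ)
    (hl : l.Prime) (H : NoFixedInHomology l D s) (γ : E) (hγ : γ ∈ D)
    (hfix : ∀ σ : G, s σ * γ * (s σ)⁻¹ = γ) (N : Subgroup E) [hN : N.Normal]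
    (hNo : IsOpen (N : Set E)) : ¬ l ∣ orderOf (γ : E ⧸ N) := by
  intro hdvd
  have hND : (N ⊓ D).Normal := inferInstance
  obtain ⟨U, hU⟩ : ∃ U : Subgroup E, U = Subgroup.zpowers γ ⊔ (N ⊓ D) := ⟨_, rfl⟩
  have hγU : γ ∈ U := by
    rw [hU]
    exact Subgroup.mem_sup_left (Subgroup.mem_zpowers γ)
  have hmem : ∀ x : E, x ∈ U ↔ ∃ k : ℤ, ∃ n ∈ N ⊓ D, γ ^ k * n = x := by
    intro x
    rw [hU, Subgroup.mem_sup_of_normal_right]
    constructor
    · rintro ⟨y, hy, z, hz, rfl⟩
      obtain ⟨k, rfl⟩ := Subgroup.mem_zpowers_iff.mp hy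
      exact ⟨k, z, hz, rfl⟩
    · rintro ⟨k, n, hn, rfl⟩
      exact ⟨γ ^ k, Subgroup.mem_zpowers_iff.mpr ⟨k, rfl⟩, n, hn, rfl⟩
  have hstab : IsStableOpen D s U := by
    refine ⟨?_, ⟨((Subgroup.zpowers γ ⊔ N : Subgroup E) : Set E), ?_, ?_⟩, ?_⟩
    · rw [hU]
      exact sup_le (by rwa [Subgroup.zpowers_le]) inf_le_right
    · exact Subgroup.isOpen_mono (le_sup_right : N ≤ Subgroup.zpowers γ ⊔ N) hNo
    · ext x
      simp only [SetLike.mem_coe, Set.mem_inter_iff]
      rw [hmem, Subgroup.mem_sup_of_normal_right]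
      constructor
      · rintro ⟨k, n, hn, rfl⟩
        exact ⟨⟨γ ^ k, Subgroup.mem_zpowers_iff.mpr ⟨k, rfl⟩, n, hn.1, rfl⟩,
          D.mul_mem (D.zpow_mem hγ k) hn.2⟩
      · rintro ⟨⟨y, hy, z, hz, rfl⟩, hD⟩
        obtain ⟨k, rfl⟩ := Subgroup.mem_zpowers_iff.mp hy
        refine ⟨k, z, ⟨hz, ?_⟩, rfl⟩
        exact (Subgroup.mul_mem_cancel_left D (D.zpow_mem hγ k)).mp hD
    · intro σ u hu
      obtain ⟨k, n, hn, rfl⟩ := (hmem u).mp hu
      refine (hmem _).mpr ⟨k, s σ * n * (s σ)⁻¹, hND.conj_mem n hn (s σ), ?_⟩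
      have h1 : γ ^ k = s σ * γ ^ k * (s σ)⁻¹ := by
        rw [← conj_zpow, hfix σ]
      calc γ ^ k * (s σ * n * (s σ)⁻¹)
          = (s σ * γ ^ k * (s σ)⁻¹) * (s σ * n * (s σ)⁻¹) := by rw [← h1]
        _ = s σ * (γ ^ k * n) * (s σ)⁻¹ := by group
  have hcomm : ⁅U, U⁆ ≤ N := by
    rw [Subgroup.commutator_le]
    intro x hx y hy
    obtain ⟨k, n, hn, rfl⟩ := (hmem x).mp hx
    obtain ⟨j, m, hm, rfl⟩ := (hmem y).mp hy
    have hn' : ((n : E) : E ⧸ N) = 1 := (QuotientGroup.eq_one_iff n).mpr hn.1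
    have hm' : ((m : E) : E ⧸ N) = 1 := (QuotientGroup.eq_one_iff m).mpr hm.1
    rw [← QuotientGroup.eq_one_iff, commutatorElement_def]
    simp only [QuotientGroup.mk_mul, QuotientGroup.mk_inv, QuotientGroup.mk_zpow]
    rw [hn', hm']
    simp only [mul_one]
    rw [← zpow_add, ← zpow_neg, ← zpow_neg, ← zpow_add, ← zpow_add]
    have : k + j + -k + -j = 0 := by ring
    rw [this, zpow_zero]
  have hfixab : ∀ σ : G, TrivialAt l U (s σ * γ * (s σ)⁻¹ * γ⁻¹) := by
    intro σ k
    rw [hfix σ, mul_inv_cancel]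
    exact subset_closure (one_mem _)
  have htriv := H U N γ hN hNo hγ hfix hU hstab γ hγU hfixab 1
  rw [pow_one] at htriv
  have hle : ⁅U, U⁆ ⊔ Subgroup.closure {x : E | ∃ v ∈ U, v ^ l = x} ≤
      Subgroup.zpowers (γ ^ l) ⊔ N := by
    refine sup_le (hcomm.trans le_sup_right) ?_
    rw [Subgroup.closure_le]
    rintro _ ⟨v, hv, rfl⟩
    obtain ⟨k, n, hn, rfl⟩ := (hmem v).mp hv
    rw [SetLike.mem_coe, Subgroup.mem_sup_of_normal_right]
    refine ⟨(γ ^ l) ^ k, Subgroup.mem_zpowers_iff.mpr ⟨k, rfl⟩,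
      ((γ ^ l) ^ k)⁻¹ * (γ ^ k * n) ^ l, ?_, by group⟩
    have hn' : ((n : E) : E ⧸ N) = 1 := (QuotientGroup.eq_one_iff n).mpr hn.1
    rw [← QuotientGroup.eq_one_iff]
    simp only [QuotientGroup.mk_mul, QuotientGroup.mk_inv, QuotientGroup.mk_zpow,
      QuotientGroup.mk_pow]
    rw [hn', mul_one, ← zpow_natCast, ← zpow_natCast, ← zpow_mul, ← zpow_mul, mul_comm,
      inv_mul_cancel]
  have hopen : IsOpen ((Subgroup.zpowers (γ ^ l) ⊔ N : Subgroup E) : Set E) :=
    Subgroup.isOpen_mono (le_sup_right : N ≤ Subgroup.zpowers (γ ^ l) ⊔ N) hNo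
  have hcl : γ ∈ (Subgroup.zpowers (γ ^ l) ⊔ N : Subgroup E) :=
    closure_minimal (SetLike.coe_subset_coe.mpr hle) (Subgroup.isClosed_of_isOpen _ hopen) htriv
  rw [Subgroup.mem_sup_of_normal_right] at hcl
  obtain ⟨y, hy, z, hz, hyz⟩ := hcl
  obtain ⟨i, rfl⟩ := Subgroup.mem_zpowers_iff.mp hy
  have hz' : ((z : E) : E ⧸ N) = 1 := (QuotientGroup.eq_one_iff z).mpr hz
  have h1 : ((γ : E) : E ⧸ N) ^ ((l : ℤ) * i - 1) = 1 := by
    have h2 : (((γ ^ l) ^ i * z : E) : E ⧸ N) = ((γ : E) : E ⧸ N) := by rw [hyz]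
    simp only [QuotientGroup.mk_mul, QuotientGroup.mk_zpow, QuotientGroup.mk_pow] at h2
    rw [hz', mul_one, ← zpow_natCast, ← zpow_mul] at h2
    rw [zpow_sub_one, h2, mul_inv_cancel]
  have h3 : ((orderOf ((γ : E) : E ⧸ N) : ℕ) : ℤ) ∣ (l : ℤ) * i - 1 :=
    orderOf_dvd_iff_zpow_eq_one.mpr h1
  have h4 : (l : ℤ) ∣ (l : ℤ) * i - 1 := (Int.natCast_dvd_natCast.mpr hdvd).trans h3
  have h5 : (l : ℤ) ∣ 1 := (Int.dvd_iff_dvd_of_dvd_sub h4).mp (Dvd.intro i rfl)
  have h6 : l ∣ 1 := by exact_mod_cast h5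
  exact hl.one_lt.ne' (Nat.dvd_one.mp h6)

end GroupTheory


section Final

variable {K Ω F M R : Type} [Field K] [Field Ω] [Field F] [Field M] [CommRing R]
  [Algebra K Ω] [Algebra Ω M] [Algebra K M] [IsScalarTower K Ω M]
  [Algebra F M] [Algebra R F] [Algebra R M] [IsScalarTower R F M]
  [Algebra K R] [IsScalarTower K R M]

theorem geom_normal (K R : Type) {Ω F M : Type} [Field K] [Field Ω] [Field F] [Field M] [CommRing R]
    [Algebra K Ω] [Algebra Ω M] [Algebra K M] [IsScalarTower K Ω M]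
    [Algebra F M] [Algebra R F] [Algebra R M] [IsScalarTower R F M]
    [Algebra K R] [IsScalarTower K R M] [IsGalois K Ω] : (geom Ω F M).Normal := by
  refine ⟨fun g hg h => ?_⟩
  rw [mem_geom] at hg ⊢
  intro a
  letI : Algebra K F := ((algebraMap R F).comp (algebraMap K R)).toAlgebra
  haveI : IsScalarTower K F M := IsScalarTower.of_algebraMap_eq (fun x => by
    rw [IsScalarTower.algebraMap_apply K R M, IsScalarTower.algebraMap_apply R F M]
    rfl)
  have h1 := AlgEquiv.restrictNormal_commutes (h⁻¹.restrictScalars K) Ω a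
  have h2 : h⁻¹ (algebraMap Ω M a) =
      algebraMap Ω M ((h⁻¹.restrictScalars K).restrictNormal Ω a) := h1.symm
  rw [AlgEquiv.mul_apply, AlgEquiv.mul_apply, h2, hg, ← h2, ← AlgEquiv.mul_apply, mul_inv_cancel,
    AlgEquiv.one_apply]

/-- `K` is a finite field or a global function field. -/
def IsFiniteOrFunctionField (K : Type) [Field K] : Prop :=
  Finite K ∨ ∃ (k : Type) (_ : Field k) (_ : Algebra (RatFunc k) K),
    Finite k ∧ FiniteDimensional (RatFunc k) K

theorem degreesDivisible_of_finiteOrFunctionField (K Ω : Type) [Field K] [Field Ω] [Algebra K Ω]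
    [IsSepClosure K Ω] (p : ℕ) [Fact p.Prime] [CharP K p] (hK : IsFiniteOrFunctionField K) :
    DegreesDivisible K Ω p := by
  haveI : IsSepClosed Ω := IsSepClosure.sep_closed K
  haveI : CharP Ω p := charP_of_injective_algebraMap (algebraMap K Ω).injective p
  apply degreesDivisible p
  intro L hL
  rcases hK with hK | ⟨k, hk, hkK, hfin, hfd⟩
  · haveI : Finite L := Module.finite_of_finite K
    exact not_surjective_of_finite L p (Fact.out : p.Prime).one_lt
  · letI : Algebra (RatFunc k) L :=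
      ((algebraMap K L).comp (algebraMap (RatFunc k) K)).toAlgebra
    haveI : IsScalarTower (RatFunc k) K L := IsScalarTower.of_algebraMap_eq' rfl
    haveI : FiniteDimensional (RatFunc k) L := FiniteDimensional.trans (RatFunc k) K L
    exact not_surjective_of_functionField k L p (Fact.out : p.Prime).one_lt

/-- The situation of part (1). -/
structure Situation (K Ω F M R : Type) [Field K] [Field Ω] [Field F] [Field M] [CommRing R]
    [Algebra K Ω] [Algebra Ω M] [Algebra F M] [Algebra R M] (p : ℕ)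
    (s : (Ω ≃ₐ[K] Ω) →* (M ≃ₐ[F] M)) : Prop where
  prime : p.Prime
  charP : CharP K p
  galois : IsGalois K Ω
  degrees : DegreesDivisible K Ω p
  galoisM : IsGalois F M
  unramified : IsUnramified R (geom Ω F M)
  closed : IsASClosed R M p
  continuous : Continuous s
  isSection : ∀ (σ : Ω ≃ₐ[K] Ω) (a : Ω), s σ (algebraMap Ω M a) = algebraMap Ω M (σ a)

/-- The images of `D` in the quotients by open normal subgroups are `p`-groups. -/
def IsProP {E : Type} [Group E] [TopologicalSpace E] (p : ℕ) (D : Subgroup E) : Prop :=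
  ∀ N : Subgroup E, N.Normal → IsOpen (N : Set E) → ∀ g ∈ D, ∃ k : ℕ, g ^ p ^ k ∈ N

end Final

/-- (1) Let `K` be a field of characteristic `p`, `Ω / K` Galois such that every finite extension `L`
of `K` in `Ω` has a finite Galois extension in `Ω` of degree divisible by `p`. Let `R` be a
`K`-algebra, `F` a field over `R` and `M` a Galois extension of `F` containing `Ω`, such that `M / FΩ` is
unramified over `R` and all equations `z ^ p - z = b` with `b ∈ M` integral over `R` are solvable in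
`M`. Let `s` be a continuous section of `Gal(M/F) → Gal(Ω/K)`. If `γ ∈ D = Gal(M/FΩ)` is fixed by
`s`, then the order of `γ` modulo `N` is prime to `p` for all open normal subgroups `N` of `Gal(M/F)`;
`γ = 1` if `D` is pro-`p`; and `γ = 1` if there are no non-trivial fixed elements in the `l`-adic
homology for the primes `l` different from `p`.
(2) The condition on the degrees holds if `K` is finite or a global function field and `Ω` is a
separable closure.
(3) Let `E` be a profinite group, `D` a normal subgroup, `s : G → E` a homomorphism and `l` a prime.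
If there are no non-trivial fixed elements in the `l`-adic homology, then every fixed element of `D`
has an order prime to `l` modulo all open normal subgroups. -/
theorem result :
    (∀ (K Ω F M R : Type) [Field K] [Field Ω] [Field F] [Field M] [CommRing R]
      [Algebra K Ω] [Algebra Ω M] [Algebra K M] [IsScalarTower K Ω M]
      [Algebra K R] [Algebra R F] [Algebra F M] [Algebra R M] [IsScalarTower R F M]
      [IsScalarTower K R M] (p : ℕ) (s : (Ω ≃ₐ[K] Ω) →* (M ≃ₐ[F] M)) (γ : M ≃ₐ[F] M),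
      Situation K Ω F M R p s → γ ∈ geom Ω F M → IsFixed s γ →
      OrdersPrimeTo p γ ∧
      (IsProP p (geom Ω F M) → γ = 1) ∧
      ((∀ l : ℕ, l.Prime → l ≠ p → NoFixedInHomology l (geom Ω F M) s) → γ = 1)) ∧
    (∀ (K Ω : Type) [Field K] [Field Ω] [Algebra K Ω] (p : ℕ), p.Prime → CharP K p →
      IsSepClosure K Ω → IsFiniteOrFunctionField K → DegreesDivisible K Ω p) ∧
    (∀ (E : Type) [Group E] [TopologicalSpace E] [IsTopologicalGroup E] [CompactSpace E]
      [TotallyDisconnectedSpace E] (G : Type) [Group G] (D : Subgroup E) (s : G →* E) (l : ℕ)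
      (γ : E), D.Normal → l.Prime → NoFixedInHomology l D s → γ ∈ D → IsFixed s γ →
      OrdersPrimeTo l γ) := by
  refine ⟨?_, ?_, ?_⟩
  · intro K Ω F M R _ _ _ _ _ _ _ _ _ _ _ _ _ _ _ p s γ hS hγ hfix
    have hp := hS.prime
    haveI : Fact p.Prime := ⟨hp⟩
    haveI := hS.charP
    haveI := hS.galois
    haveI := hS.galoisM
    haveI : CharP M p := charP_of_injective_algebraMap (algebraMap K M).injective p
    have h1 : OrdersPrimeTo p γ := fun N _ hN =>
      not_dvd_order p hS.degrees hS.unramified hS.closed s hS.continuous hS.isSection γ hγ hfix N hN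
    haveI : (geom Ω F M).Normal := geom_normal K R
    refine ⟨h1, fun hpro => ?_, fun H => ?_⟩
    · refine eq_one_of_orders γ fun N hN hNo l hl hdvd => ?_
      obtain ⟨k, hk⟩ := hpro N hN hNo γ hγ
      have h2 : (γ : (M ≃ₐ[F] M) ⧸ N) ^ p ^ k = 1 := by
        rw [← QuotientGroup.mk_pow, QuotientGroup.eq_one_iff]
        exact hk
      have h3 : l = p := (Nat.prime_dvd_prime_iff_eq hl hp).mp
        (hl.dvd_of_dvd_pow (hdvd.trans (orderOf_dvd_of_pow_eq_one h2)))
      rw [h3] at hdvd
      exact h1 N hNo hdvd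
    · refine eq_one_of_orders γ fun N hN hNo l hl hdvd => ?_
      by_cases hlp : l = p
      · rw [hlp] at hdvd
        exact h1 N hNo hdvd
      · exact not_dvd_of_noFixed (geom Ω F M) s l hl (H l hl hlp) γ hγ hfix N hNo hdvd
  · intro K Ω _ _ _ p hp hK hS h
    haveI : Fact p.Prime := ⟨hp⟩
    exact degreesDivisible_of_finiteOrFunctionField K Ω p h
  · intro E _ _ _ _ _ G _ D s l γ hD hl H hγ hfix N hN hNo
    exact not_dvd_of_noFixed D s l hl H γ hγ hfix N hNo

end Pool.Agent.Results.MP_a94a03_ag.OrderPrimeToP
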